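import Pool.Agent.Helper3.GAL.Mat
import Pool.Agent.Helper21.PF.Gal
import Pool.Agent.Helper71.PF.OddEnd
import Pool.Agent.Helper14.PF.Fin

/-!
Project G (MP_b8862a_ag): the gap theorem on the `ℓ`-adic side.
-/

set_option linter.unusedSectionVars false

open Matrix

namespace MH

variable {n : Type*} [Fintype n] [DecidableEq n]
variable {w m : ℤ} {Q : Matrix n n ℚ} {S : Finset ℤ} {P R : ℤ → Matrix n n ℂ} {Γ : Subgroup (GL n ℂ)}

/-- The skew part of the Lie algebra is irreducible, even weight. -/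
theorem IsGal.irr_LS3 [Nonempty n] (H : IsHS m Q S P) (G : IsGal m Q S P Γ R) (hirr : VIrr Γ)
    (hd : ∀ d : ℕ, (∀ p, d ∣ (P p).rank) → d = 1) :
    (∑ p ∈ S, ((p - m : ℤ) : ℂ) • R p ∈ LS Q Γ) ∧
    ∀ W : Submodule ℂ (n → ℂ), (∀ X ∈ LS Q Γ, ∀ w ∈ W, X *ᵥ w ∈ W) → W = ⊥ ∨ W = ⊤ := by
  classical
  have hn0 : ((Fintype.card n : ℕ) : ℂ) ≠ 0 := by
    exact_mod_cast Fintype.card_ne_zero
  obtain ⟨B, Bi, Qi, _, _, hQ1, hQ2, _⟩ := H.exists_basis
  -- the Lie algebra `LG` is irreducible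
  have hsum0 : ∑ p ∈ S, ((p - 0 : ℤ) : ℂ) • R p = ∑ p ∈ S, (p : ℂ) • R p := by simp
  have hG : ∀ W : Submodule ℂ (n → ℂ), (∀ X ∈ LG Γ, ∀ w ∈ W, X *ᵥ w ∈ W) → W = ⊥ ∨ W = ⊤ := by
    intro W hW
    refine clifford (LG Γ) (fun g hg X hX => LG_conj hg hX) hirr G.h_mem (E := G.EG 0) (Λ := LamS 0 S) ?_ ?_ W hW
    · rw [← hsum0]
      exact G.sd 0
    · exact fun d hdd => G.div_iff H hd 0 d hdd
  -- scalars
  have hh0 : ∑ p ∈ S, ((p - m : ℤ) : ℂ) • R p = (∑ p ∈ S, (p : ℂ) • R p) - (m : ℂ) • (1 : Matrix n n ℂ) := by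
    rw [← G.sum, Finset.smul_sum, ← Finset.sum_sub_distrib]
    refine Finset.sum_congr rfl fun p _ => ?_
    rw [← sub_smul]
    push_cast
    rfl
  have htr := trace_h0 H G
  have h1G : m ≠ 0 → (1 : Matrix n n ℂ) ∈ LG Γ := by
    intro hm
    have h1 := scalar_mem (LG Γ) (fun X hX Y hY => LG_br hX hY) hG G.h_mem
    have h2 : (∑ p ∈ S, (p : ℂ) • R p).trace = (m : ℂ) * Fintype.card n := by
      rw [hh0, Matrix.trace_sub, Matrix.trace_smul, Matrix.trace_one, smul_eq_mul] at htr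
      linear_combination htr
    rw [h2] at h1
    have h3 := (LG Γ).smul_mem ((m : ℂ) * Fintype.card n)⁻¹ h1
    rwa [smul_smul, inv_mul_cancel₀ (mul_ne_zero (by exact_mod_cast hm) hn0), one_smul] at h3
  have hh0G : ∑ p ∈ S, ((p - m : ℤ) : ℂ) • R p ∈ LG Γ := by
    rw [hh0]
    by_cases hm : m = 0
    · rw [hm, Int.cast_zero, zero_smul, sub_zero]
      exact G.h_mem
    · exact (LG Γ).sub_mem G.h_mem ((LG Γ).smul_mem _ (h1G hm))
  -- the skew part
  have hhS : ∑ p ∈ S, ((p - m : ℤ) : ℂ) • R p ∈ LS Q Γ := by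
    refine ⟨hh0G, ?_⟩
    obtain ⟨c, _, hc⟩ := G.LG_sim H hh0G
    set X := ∑ p ∈ S, ((p - m : ℤ) : ℂ) • R p
    have h1 : (Xᵀ + toC Q * X * Qi).trace = c * Fintype.card n := by
      have h2 : Xᵀ + toC Q * X * Qi = c • (1 : Matrix n n ℂ) := by
        have h3 := congrArg (fun Y => Y * Qi) hc
        simp only [add_mul, smul_mul_assoc, hQ1] at h3
        rw [mul_assoc Xᵀ, hQ1, mul_one] at h3
        exact h3
      rw [h2, Matrix.trace_smul, Matrix.trace_one, smul_eq_mul]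
    rw [Matrix.trace_add, Matrix.trace_transpose, Matrix.trace_mul_comm, ← mul_assoc, hQ2, one_mul, htr,
      add_zero] at h1
    have h2 : c = 0 := by
      rcases mul_eq_zero.1 h1.symm with h | h
      · exact h
      · exact absurd h hn0
    rw [hc, h2, zero_smul]
  refine ⟨hhS, ?_⟩
  intro W hW
  apply hG
  intro X hX w hw
  obtain ⟨c, hc0, hc⟩ := G.LG_sim H hX
  by_cases hm : m = 0
  · exact hW X ⟨hX, by rw [hc, hc0 hm, zero_smul]⟩ w hw
  · have h1 : X - (c / 2) • (1 : Matrix n n ℂ) ∈ LS Q Γ := by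
      refine ⟨(LG Γ).sub_mem hX ((LG Γ).smul_mem _ (h1G hm)), ?_⟩
      rw [Matrix.transpose_sub, Matrix.transpose_smul, Matrix.transpose_one, sub_mul, mul_sub, smul_mul_assoc,
        one_mul, mul_smul_comm, mul_one]
      have : Xᵀ * toC Q - (c / 2) • toC Q + (toC Q * X - (c / 2) • toC Q) =
          (Xᵀ * toC Q + toC Q * X) - c • toC Q := by
        have h2 : c • toC Q = (c / 2) • toC Q + (c / 2) • toC Q := by
          rw [← add_smul]
          congr 1
          ring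
        rw [h2]
        abel
      rw [this, hc, sub_self]
    have h2 := hW _ h1 w hw
    have h3 : X *ᵥ w = (X - (c / 2) • (1 : Matrix n n ℂ)) *ᵥ w + (c / 2) • w := by
      rw [Matrix.sub_mulVec, Matrix.smul_mulVec, Matrix.one_mulVec]
      abel
    rw [h3]
    exact W.add_mem h2 (W.smul_mem _ hw)

namespace IsGalP

theorem R_supp3 (G : IsGalP w Q S P Γ R) {p : ℤ} (hp : p ∉ S) : R p = 0 := by
  have h1 : R p = R p * ∑ q ∈ S, R q := by rw [G.sum, mul_one]
  rw [h1, Finset.mul_sum]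
  refine Finset.sum_eq_zero fun q hq => ?_
  rw [G.mul, if_neg]
  rintro rfl
  exact hp hq

/-- the projections to the eigenspaces of `∑ (2 p - w) R p` -/
noncomputable def EP3 (_ : IsGalP w Q S P Γ R) (μ : ℝ) : Matrix n n ℂ :=
  ∑ p ∈ S.filter (fun p => ((2 * p - w : ℤ) : ℝ) = μ), R p

theorem EP3_int (G : IsGalP w Q S P Γ R) (p : ℤ) : G.EP3 ((2 * p - w : ℤ) : ℝ) = R p := by
  unfold EP3
  by_cases hp : p ∈ S
  · rw [Finset.sum_eq_single p]
    · intro q hq hqp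
      exfalso
      apply hqp
      have h1 : ((2 * q - w : ℤ) : ℝ) = ((2 * p - w : ℤ) : ℝ) := (Finset.mem_filter.1 hq).2
      have h2 : 2 * q - w = 2 * p - w := by exact_mod_cast h1
      omega
    · intro h
      exact (h (Finset.mem_filter.2 ⟨hp, rfl⟩)).elim
  · rw [G.R_supp3 hp]
    refine Finset.sum_eq_zero fun q hq => ?_
    have h1 : ((2 * q - w : ℤ) : ℝ) = ((2 * p - w : ℤ) : ℝ) := (Finset.mem_filter.1 hq).2
    have h2 : 2 * q - w = 2 * p - w := by exact_mod_cast h1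
    have h3 : q = p := by omega
    rw [h3, G.R_supp3 hp]

theorem EP3_other (G : IsGalP w Q S P Γ R) {μ : ℝ} (h : ∀ p ∈ S, ((2 * p - w : ℤ) : ℝ) ≠ μ) : G.EP3 μ = 0 := by
  unfold EP3
  rw [Finset.filter_false_of_mem h, Finset.sum_empty]

theorem inj3 (w : ℤ) : Set.InjOn (fun p : ℤ => ((2 * p - w : ℤ) : ℝ)) (S : Set ℤ) := by
  intro p _ q _ h
  have h1 : ((2 * p - w : ℤ) : ℝ) = ((2 * q - w : ℤ) : ℝ) := h
  have h2 : 2 * p - w = 2 * q - w := by exact_mod_cast h1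
  omega

theorem sd3 (G : IsGalP w Q S P Γ R) : SD (∑ p ∈ S, ((2 * p - w : ℤ) : ℂ) • R p) G.EP3
    (S.image fun p : ℤ => ((2 * p - w : ℤ) : ℝ)) := by
  refine ⟨?_, ?_, ?_⟩
  · intro μ ν
    by_cases hμ : ∃ p ∈ S, ((2 * p - w : ℤ) : ℝ) = μ
    · obtain ⟨p, _, rfl⟩ := hμ
      by_cases hν : ∃ q ∈ S, ((2 * q - w : ℤ) : ℝ) = ν
      · obtain ⟨q, _, rfl⟩ := hν
        rw [G.EP3_int, G.EP3_int, G.mul]
        by_cases hpq : p = q
        · rw [if_pos hpq, if_pos (by rw [hpq])]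
        · rw [if_neg hpq, if_neg]
          intro h
          have h3 : 2 * p - w = 2 * q - w := by exact_mod_cast h
          exact hpq (by omega)
      · push Not at hν
        rw [G.EP3_other hν, mul_zero]
        split_ifs with h
        · rw [h, G.EP3_other hν]
        · rfl
    · push Not at hμ
      rw [G.EP3_other hμ, zero_mul]
      simp
  · rw [Finset.sum_image (fun p hp q hq h => inj3 w hp hq h)]
    simp_rw [G.EP3_int]
    exact G.sum
  · rw [Finset.sum_image (fun p hp q hq h => inj3 w hp hq h)]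
    simp_rw [G.EP3_int]
    refine Finset.sum_congr rfl fun p _ => ?_
    push_cast
    rfl

theorem ne3 (G : IsGalP w Q S P Γ R) {p : ℤ} : R p = 0 ↔ P p = 0 := by
  have key : ∀ A : Matrix n n ℂ, A.rank = 0 → A = 0 := by
    intro A h1
    rw [Matrix.rank, Submodule.finrank_eq_zero, LinearMap.range_eq_bot] at h1
    exact (LinearEquiv.map_eq_zero_iff Matrix.toLin').1 h1
  constructor
  · intro h
    apply key
    rw [← G.rank, h, Matrix.rank_zero]
  · intro h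
    apply key
    rw [G.rank, h, Matrix.rank_zero]

theorem div3 (G : IsGalP w Q S P Γ R) (H : IsHW w Q S P) (hd : ∀ d : ℕ, (∀ p, d ∣ (P p).rank) → d = 1) (d : ℕ)
    (h : ∀ μ ∈ S.image (fun p : ℤ => ((2 * p - w : ℤ) : ℝ)), d ∣ (G.EP3 μ).rank) : d = 1 := by
  apply hd
  intro p
  by_cases hp : p ∈ S
  · have h1 := h ((2 * p - w : ℤ) : ℝ) (Finset.mem_image.2 ⟨p, hp, rfl⟩)
    rwa [G.EP3_int, G.rank] at h1
  · rw [H.supp p hp, Matrix.rank_zero]
    exact dvd_zero d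

/-- The skew part of the Lie algebra is irreducible, all weights. -/
theorem irr3 [Nonempty n] (H : IsHW w Q S P) (G : IsGalP w Q S P Γ R) (hirr : VIrr Γ)
    (hd : ∀ d : ℕ, (∀ p, d ∣ (P p).rank) → d = 1) :
    (∑ p ∈ S, ((2 * p - w : ℤ) : ℂ) • R p ∈ LS Q Γ) ∧
    ∀ W : Submodule ℂ (n → ℂ), (∀ X ∈ LS Q Γ, ∀ w ∈ W, X *ᵥ w ∈ W) → W = ⊥ ∨ W = ⊤ := by
  rcases Int.even_or_odd' w with ⟨m, rfl | rfl⟩
  · obtain ⟨h1, h2⟩ := IsGal.irr_LS3 H.toHS G.even hirr hd
    refine ⟨?_, h2⟩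
    have h3 := (LS Q Γ).smul_mem (2 : ℂ) h1
    have h4 : (2 : ℂ) • ∑ p ∈ S, ((p - m : ℤ) : ℂ) • R p = ∑ p ∈ S, ((2 * p - 2 * m : ℤ) : ℂ) • R p := by
      rw [Finset.smul_sum]
      refine Finset.sum_congr rfl fun p _ => ?_
      rw [smul_smul]
      congr 1
      push_cast
      ring
    rwa [h4] at h3
  · obtain ⟨_, h1, h2⟩ := IsGalO.irr_LSO H G.odd hirr hd
    refine ⟨?_, h2⟩
    have h3 := (LSO Q Γ).smul_mem (2 : ℂ) h1
    have hh2 : (∑ p ∈ S, ((2 * p - (2 * m + 1) : ℤ) : ℂ) • R p) = (2 : ℂ) • OW.hm m R S := by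
      unfold OW.hm
      rw [smul_sub, smul_smul, Finset.smul_sum]
      have e1 : (2 * ((m : ℂ) + 1 / 2)) • (1 : Matrix n n ℂ) = ∑ p ∈ S, (2 * ((m : ℂ) + 1 / 2)) • R p := by
        rw [← Finset.smul_sum, G.sum]
      rw [e1, ← Finset.sum_sub_distrib]
      refine Finset.sum_congr rfl fun p _ => ?_
      rw [smul_smul, ← sub_smul]
      congr 1
      push_cast
      ring
    rw [hh2]
    exact h3

/-- Elements of the Lie algebra of the Galois group that map one Hodge-Tate piece to another one are skew. -/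
theorem skew3 (H : IsHW w Q S P) (G : IsGalP w Q S P Γ R) [Nonempty n] {a b : ℤ} (hab : a ≠ b)
    {X : Matrix n n ℂ} (hX : R a * X * R b = X) (hL : X ∈ LG Γ) : X ∈ LS Q Γ := by
  refine ⟨hL, ?_⟩
  have hn0 : ((Fintype.card n : ℕ) : ℂ) ≠ 0 := by
    exact_mod_cast Fintype.card_ne_zero
  obtain ⟨_, _, Qi, _, _, hQ1, hQ2, _⟩ := H.exists_basis
  have htr : X.trace = 0 := by
    rw [← hX, mul_assoc, Matrix.trace_mul_comm, mul_assoc, G.mul, if_neg (Ne.symm hab), mul_zero, Matrix.trace_zero]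
  obtain ⟨c, hc⟩ : ∃ c : ℂ, Xᵀ * toC Q + toC Q * X = c • toC Q := by
    rcases Int.even_or_odd' w with ⟨m, rfl | rfl⟩
    · obtain ⟨c, _, hc⟩ := G.even.LG_sim H.toHS hL
      exact ⟨c, hc⟩
    · obtain ⟨c, hc⟩ := G.odd.LG_sim H hL
      exact ⟨c, hc⟩
  have h1 : (Xᵀ + toC Q * X * Qi).trace = c * Fintype.card n := by
    have h2 : Xᵀ + toC Q * X * Qi = c • (1 : Matrix n n ℂ) := by
      have h3 := congrArg (fun Y => Y * Qi) hc
      simp only [add_mul, smul_mul_assoc, hQ1] at h3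
      rw [mul_assoc Xᵀ, hQ1, mul_one] at h3
      exact h3
    rw [h2, Matrix.trace_smul, Matrix.trace_one, smul_eq_mul]
  rw [Matrix.trace_add, Matrix.trace_transpose, Matrix.trace_mul_comm, ← mul_assoc, hQ2, one_mul, htr,
    add_zero] at h1
  have h2 : c = 0 := by
    rcases mul_eq_zero.1 h1.symm with h | h
    · exact h
    · exact absurd h hn0
  rw [hc, h2, zero_smul]

/-- **The gap theorem for the Lie algebra of the Galois group**: `a` and `b` are the highest and the lowest degree, and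
there is a third degree. -/
theorem gap3 (H : IsHW w Q S P) (G : IsGalP w Q S P Γ R) (hirr : VIrr Γ)
    (hd : ∀ d : ℕ, (∀ p, d ∣ (P p).rank) → d = 1)
    {a b : ℤ} (haw : a + b = w) (hab : b < a) (htop : ∀ p, a < p → P p = 0) {c : ℤ} (hbc : b < c) (hca : c < a)
    (hPc : P c ≠ 0) :
    (∀ X : Matrix n n ℂ, Xᵀ * toC Q + toC Q * X = 0 → X ∈ LG Γ) ∨
    ((Even w → Even (P a).rank) ∧ (Odd w → 3 ≤ (P a).rank) ∧ ∃ X₀ : Matrix n n ℂ, X₀ ≠ 0 ∧ ∀ X : Matrix n n ℂ,
      (R a * X * R b = X ∧ X ∈ LG Γ) ↔ ∃ c : ℂ, X = c • X₀) ∨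
    (∀ X : Matrix n n ℂ, R a * X * R b = X → X ∈ LG Γ → X = 0) := by
  classical
  have hn : Nonempty n := by
    by_contra hcon
    rw [not_nonempty_iff] at hcon
    exact hPc (Subsingleton.elim _ _)
  obtain ⟨_, _, Qi, _, _, hQ1, hQ2, _⟩ := H.exists_basis
  obtain ⟨hh, hS⟩ := G.irr3 H hirr hd
  have hε : ((-1 : ℂ) ^ w) * ((-1 : ℂ) ^ w) = 1 := by
    rw [← mul_zpow]
    norm_num
  obtain ⟨t, htd⟩ : ∃ t : ℝ, t = ((2 * a - w : ℤ) : ℝ) := ⟨_, rfl⟩
  have ht : 0 < t := by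
    rw [htd]
    have : (0 : ℤ) < 2 * a - w := by omega
    exact_mod_cast this
  have hEt : G.EP3 t = R a := by rw [htd, G.EP3_int]
  have hEt' : G.EP3 (-t) = R b := by
    have e1 : -t = ((2 * b - w : ℤ) : ℝ) := by
      rw [htd]
      have : (2 * b - w : ℤ) = -(2 * a - w) := by omega
      rw [this]
      push_cast
      ring
    rw [e1, G.EP3_int]
  have htop' : ∀ μ, G.EP3 μ ≠ 0 → μ ≤ t := by
    intro μ hμ
    by_cases h1 : ∃ p ∈ S, ((2 * p - w : ℤ) : ℝ) = μ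
    · obtain ⟨p, _, rfl⟩ := h1
      rw [G.EP3_int] at hμ
      have h2 : P p ≠ 0 := fun h => hμ (G.ne3.2 h)
      have h3 : p ≤ a := by
        by_contra h4
        exact h2 (htop p (by omega))
      rw [htd]
      have : (2 * p - w : ℤ) ≤ 2 * a - w := by omega
      exact_mod_cast this
    · push Not at h1
      exact absurd (G.EP3_other h1) hμ
  have h0 : 1 - G.EP3 t - G.EP3 (-t) ≠ 0 := by
    rw [hEt, hEt']
    intro h1
    have h2 : (1 - R a - R b) * R c = R c := by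
      rw [sub_mul, sub_mul, one_mul, G.mul, G.mul, if_neg (by omega), if_neg (by omega), sub_zero, sub_zero]
    rw [h1, zero_mul] at h2
    exact hPc (G.ne3.1 h2.symm)
  have key := tri_matrix3 hε H.Q_symm hQ1 hQ2 (L := LS Q Γ) (fun X hX Y hY => LS_br hX hY) hS (fun X hX => hX.2) hh
    G.sd3 (fun d h => G.div3 H hd d h) ht htop' h0
  rw [hEt, hEt'] at key
  rcases key with h1 | ⟨h1, h2, X₀, h3, h4⟩ | h1
  · exact Or.inr (Or.inr fun X hX hL => h1 X (G.skew3 H (by omega) hX hL) hX)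
  · refine Or.inr (Or.inl ⟨fun hw => ?_, fun hw => ?_, X₀, h3, fun X => ?_⟩)
    · rw [← G.rank a]
      exact h1 (hw.neg_one_zpow)
    · rw [← G.rank a]
      exact h2 (hw.neg_one_zpow)
    · rw [← h4 X]
      exact ⟨fun h => ⟨G.skew3 H (by omega) h.1 h.2, h.1⟩, fun h => ⟨h.2, h.1.1⟩⟩
  · exact Or.inl fun X hX => (h1 X hX).1

/-- **The gap theorem for the Lie algebra of the Galois group**, with the list for three Hodge numbers `s, h, s`, `s` an
odd prime number. -/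
theorem gap3p (H : IsHW w Q S P) (G : IsGalP w Q S P Γ R) (hirr : VIrr Γ)
    (hd : ∀ d : ℕ, (∀ p, d ∣ (P p).rank) → d = 1)
    {a b : ℤ} (haw : a + b = w) (hab : b < a) (htop : ∀ p, a < p → P p = 0) {c : ℤ} (hbc : b < c) (hca : c < a)
    (hPc : P c ≠ 0) :
    (∀ X : Matrix n n ℂ, Xᵀ * toC Q + toC Q * X = 0 → X ∈ LG Γ) ∨
    ((Even w → Even (P a).rank) ∧ (Odd w → 3 ≤ (P a).rank) ∧ ∃ X₀ : Matrix n n ℂ, X₀ ≠ 0 ∧ ∀ X : Matrix n n ℂ,
      (R a * X * R b = X ∧ X ∈ LG Γ) ↔ ∃ c : ℂ, X = c • X₀) ∨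
    ((∀ X : Matrix n n ℂ, R a * X * R b = X → X ∈ LG Γ → X = 0) ∧
      ∀ (m : ℤ) (s h : ℕ), w = 2 * m → (P a).rank = s → (P m).rank = h → (∀ p, p ≠ a → p ≠ m → p ≠ b → P p = 0) →
        s.Prime → s ≠ 2 → h ≠ 2 * s → h = s ^ 2 ∨ 2 * h + s = s ^ 2 + 2 ∨ (s = 3 ∧ h = 8)) := by
  have hn : Nonempty n := by
    by_contra hcon
    rw [not_nonempty_iff] at hcon
    exact hPc (Subsingleton.elim _ _)
  rcases G.gap3 H hirr hd haw hab htop hbc hca hPc with h3 | h3 | h3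
  · exact Or.inl h3
  · exact Or.inr (Or.inl h3)
  · by_cases hex : ∀ (m : ℤ) (s h : ℕ), w = 2 * m → (P a).rank = s → (P m).rank = h →
        (∀ p, p ≠ a → p ≠ m → p ≠ b → P p = 0) →
        s.Prime → s ≠ 2 → h ≠ 2 * s → h = s ^ 2 ∨ 2 * h + s = s ^ 2 + 2 ∨ (s = 3 ∧ h = 8)
    · exact Or.inr (Or.inr ⟨h3, hex⟩)
    · left
      push Not at hex
      obtain ⟨m, s, h, hwm, h1, h0, hP, sp, s2, e4, x1, x2, x3⟩ := hex
      have s3 : 3 ≤ s := by
        have := sp.two_le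
        omega
      have hcm : c = m := by
        by_contra hcm
        exact hPc (hP c (by omega) hcm (by omega))
      subst hcm
      subst hwm
      obtain ⟨k, hk⟩ : ∃ k : ℤ, k = a - c := ⟨_, rfl⟩
      have ha : a = c + k := by omega
      have hb : b = c - k := by omega
      subst ha
      subst hb
      have hk0 : 0 < k := by omega
      have H' := H.toHS
      have hh : 0 < h := by
        rw [← h0]
        rcases Nat.eq_zero_or_pos (P c).rank with h6 | h6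
        · exfalso
          rw [Matrix.rank, Submodule.finrank_eq_zero, LinearMap.range_eq_bot] at h6
          exact hPc ((LinearEquiv.map_eq_zero_iff Matrix.toLin').1 h6)
        · exact h6
      have r1 : (fun p => (P p).rank) (c + k) = s := h1
      have r0 : (fun p => (P p).rank) c = h := h0
      have rr : ∀ p, p ≠ c + k → p ≠ c → p ≠ c - k → (fun p => (P p).rank) p = 0 := by
        intro p h2 h3 h4
        simp only [hP p h2 h3 h4, Matrix.rank_zero]
      have hcard : Fintype.card n = 2 * s + h := by rw [card_three2 H' hk0 hP, h1, h0]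
      have h2 : 2 ≤ Fintype.card n := by omega
      have hI : NI.Indec (2 * c) (fun p => (P p).rank) := indec_three55 hk0 r1 r0 rr e4
      exact LG_full_core H' G.even hirr hI (core_three55 hk0 h2 r1 r0 rr
        fun ω a b L hL hirr hsk y hy hd hev hs' h0' => by
          have := hL
          exact PG.three_full a b L hirr hsk hy hd hev hs' h0' sp s3 hh x1 x2
            (fun h6 => ⟨by omega, x3 h6⟩)) hd

end IsGalP

end MH
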