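import Pool.Agent.Helper2.PG.DichG
import Pool.Agent.Helper98.PG.ExtMat

/-!
Project G (MP_b8862a_ag): the gap theorem in matrix form, for multiplicities without common divisor.
-/

set_option linter.unusedSectionVars false

open Matrix

namespace MH

variable {n : Type*} [Fintype n] [DecidableEq n]

/-- Simplicity does not depend on the basis. -/
theorem smp_of_LBB3 {L : Submodule ℂ (Matrix n n ℂ)} {B Bi : Matrix n n ℂ} (h1 : B * Bi = 1) (h2 : Bi * B = 1)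
    (hs : Smp (LBB27 L B Bi)) : Smp L := by
  intro K hK hid
  rcases hs (LBB27 K B Bi) (fun x hx => hK hx) (by
    intro x hx y hy
    rw [mem_LBB27, cj_sub, ← cj_mul h1, ← cj_mul h1]
    exact hid _ (mem_LBB27.1 hx) _ (mem_LBB27.1 hy)) with h5 | h5
  · left
    rw [eq_bot_iff]
    intro Y hY
    have h6 : cj B Bi Y ∈ LBB27 K B Bi := by
      rw [mem_LBB27, cj_cj h2]
      exact hY
    rw [h5, Submodule.mem_bot] at h6
    rw [Submodule.mem_bot, ← cj_cj h2 Y, h6, cj_zero]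
  · right
    refine le_antisymm hK ?_
    intro Y hY
    have h6 : cj B Bi Y ∈ LBB27 L B Bi := by
      rw [mem_LBB27, cj_cj h2]
      exact hY
    rw [← h5, mem_LBB27, cj_cj h2] at h6
    exact h6

/-- **The gap theorem in matrix form.** A bracket closed irreducible space of matrices that are skew for a symmetric or
alternating form and that contains a diagonalisable matrix whose multiplicities have no common divisor: it contains no
matrix that maps the lowest eigenspace to the highest one, or one line of these, or all skew matrices. -/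
theorem tri_matrix3 [Nonempty n] {ε : ℂ} (hε : ε * ε = 1) {Q' Qi : Matrix n n ℂ} (hQs : Q'ᵀ = ε • Q')
    (hQ1 : Q' * Qi = 1) (hQ2 : Qi * Q' = 1)
    {L : Submodule ℂ (Matrix n n ℂ)} (hbr : ∀ X ∈ L, ∀ Y ∈ L, X * Y - Y * X ∈ L)
    (hirr : ∀ W : Submodule ℂ (n → ℂ), (∀ X ∈ L, ∀ w ∈ W, X *ᵥ w ∈ W) → W = ⊥ ∨ W = ⊤)
    (hsk : ∀ X ∈ L, Xᵀ * Q' + Q' * X = 0) {h : Matrix n n ℂ} (hh : h ∈ L)
    {E : ℝ → Matrix n n ℂ} {Λ : Finset ℝ} (hE : SD h E Λ)
    (hd : ∀ d : ℕ, (∀ μ ∈ Λ, d ∣ (E μ).rank) → d = 1) {t : ℝ} (ht : 0 < t) (htop : ∀ μ, E μ ≠ 0 → μ ≤ t)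
    (h0 : 1 - E t - E (-t) ≠ 0) :
    (∀ X ∈ L, E t * X * E (-t) = X → X = 0) ∨
    ((ε = 1 → Even (E t).rank) ∧ (ε = -1 → 3 ≤ (E t).rank) ∧ ∃ X₀ : Matrix n n ℂ, X₀ ≠ 0 ∧
      ∀ X : Matrix n n ℂ, (X ∈ L ∧ E t * X * E (-t) = X) ↔ ∃ c : ℂ, X = c • X₀) ∨
    ∀ X : Matrix n n ℂ, Xᵀ * Q' + Q' * X = 0 → X ∈ L := by
  classical
  obtain ⟨B, Bi, h1, h2, h3, h4⟩ := exists_herm L hbr hirr (fun X hX => tr_of_skew98 hQ1 hQ2 (hsk X hX)) hh hE
  have D := dat_irr98 hε hQs hQ1 hQ2 hbr hirr hsk hh hE h1 h2 h3 h4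
  have b1 : Bᵀ * Biᵀ = 1 := by rw [← Matrix.transpose_mul, h2, Matrix.transpose_one]
  have b2 : Biᵀ * Bᵀ = 1 := by rw [← Matrix.transpose_mul, h1, Matrix.transpose_one]
  have hGiG : B * Qi * Bᵀ * (Biᵀ * Q' * Bi) = 1 := by
    calc B * Qi * Bᵀ * (Biᵀ * Q' * Bi) = B * Qi * (Bᵀ * Biᵀ) * Q' * Bi := by simp only [mul_assoc]
      _ = B * (Qi * Q') * Bi := by rw [b1, mul_one]; simp only [mul_assoc]
      _ = 1 := by rw [hQ2, mul_one, h1]
  have hGGi : Biᵀ * Q' * Bi * (B * Qi * Bᵀ) = 1 := by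
    calc Biᵀ * Q' * Bi * (B * Qi * Bᵀ) = Biᵀ * Q' * (Bi * B) * Qi * Bᵀ := by simp only [mul_assoc]
      _ = Biᵀ * (Q' * Qi) * Bᵀ := by rw [h2, mul_one]; simp only [mul_assoc]
      _ = 1 := by rw [hQ1, mul_one, b2]
  have hF : (Biᵀ * Q' * Bi)ᵀ = ε • (Biᵀ * Q' * Bi) := by
    rw [Matrix.transpose_mul, Matrix.transpose_mul, Matrix.transpose_transpose, hQs, smul_mul_assoc, mul_smul_comm,
      ← mul_assoc]
  -- skew matrices in the new basis
  have hskc : ∀ X : Matrix n n ℂ, Xᵀ * Q' + Q' * X = 0 →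
      (cj B Bi X)ᵀ * (Biᵀ * Q' * Bi) + (Biᵀ * Q' * Bi) * cj B Bi X = 0 := by
    intro X hX
    have e1 : (cj B Bi X)ᵀ * (Biᵀ * Q' * Bi) = Biᵀ * (Xᵀ * Q') * Bi := by
      unfold cj
      rw [Matrix.transpose_mul, Matrix.transpose_mul]
      calc Biᵀ * (Xᵀ * Bᵀ) * (Biᵀ * Q' * Bi) = Biᵀ * Xᵀ * (Bᵀ * Biᵀ) * Q' * Bi := by simp only [mul_assoc]
        _ = _ := by rw [b1, mul_one]; simp only [mul_assoc]
    have e2 : (Biᵀ * Q' * Bi) * cj B Bi X = Biᵀ * (Q' * X) * Bi := by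
      unfold cj
      calc Biᵀ * Q' * Bi * (B * X * Bi) = Biᵀ * Q' * (Bi * B) * X * Bi := by simp only [mul_assoc]
        _ = _ := by rw [h2, mul_one]; simp only [mul_assoc]
    rw [e1, e2, ← Matrix.add_mul, ← Matrix.mul_add, hX, mul_zero, zero_mul]
  have hEE : ∀ μ, E μ * E μ = E μ := fun μ => by rw [hE.mul, if_pos rfl]
  have r1 : ∀ μ, (cj B Bi (E μ)).rank = (E μ).rank := fun μ => rank_cj h1 h2 (hEE μ)
  have htop' : ∀ μ, cj B Bi (E μ) ≠ 0 → μ ≤ t := fun μ hμ => htop μ fun h => hμ (by rw [h, cj_zero])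
  have hsmp : Ld (LBB27 L B Bi) (cj B Bi h) (2 * t) ≠ ⊥ → Smp (LBB27 L B Bi) := fun hne =>
    D.smp_of_or (fun K hK => D.h_mem_or_ext98 ht htop' hne hK) (by
      intro d hdd
      refine hd d fun μ hμ => ?_
      rw [← r1 μ]
      exact hdd μ hμ)
  have h0' : 1 - cj B Bi (E t) - cj B Bi (E (-t)) ≠ 0 := by
    intro h5
    apply h0
    have h6 := congrArg (cj Bi B) h5
    rw [← cj_one (B := B) (Bi := Bi) h1, ← cj_sub, ← cj_sub, cj_cj h2, cj_zero] at h6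
    exact h6
  have hbot : ∀ μ, E μ ≠ 0 → -t ≤ μ := by
    intro μ hμ
    have e1 : E (-μ) ≠ 0 := by
      intro h5
      apply hμ
      have h6 := E_symm98 hQ1 hQ2 (hsk h hh) hE (-μ)
      rw [h5, Matrix.transpose_zero, mul_zero, zero_mul, neg_neg] at h6
      exact h6
    have := htop _ e1
    linarith
  have hLd : ∀ X : Matrix n n ℂ, (X ∈ L ∧ E t * X * E (-t) = X) ↔
      cj B Bi X ∈ Ld (LBB27 L B Bi) (cj B Bi h) (2 * t) := by
    intro X
    rw [← hE.top_iff2 htop hbot, mem_Ld, mem_LBB27, cj_cj h2, cj_mul h2, cj_mul h2, ← cj_sub, ← cj_smul]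
    refine and_congr_right fun _ => ⟨fun e1 => by rw [e1], fun e1 => ?_⟩
    have e2 := congrArg (cj Bi B) e1
    rwa [cj_cj h2, cj_cj h2] at e2
  rcases D.tri_L2 hGGi hGiG hε hF (by
      intro X hX
      have e1 := hskc _ (hsk _ (mem_LBB27.1 hX))
      rwa [cj_cj h1] at e1) ht htop' h0' hsmp with h5 | ⟨h5, h6, h7⟩ | h5
  · left
    intro X hX hX'
    have e1 := (hLd X).1 ⟨hX, hX'⟩
    rw [h5, Submodule.mem_bot] at e1
    have e2 := congrArg (cj Bi B) e1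
    rwa [cj_cj h2, cj_zero] at e2
  · right; left
    rw [r1] at h6 h7
    refine ⟨h6, h7, ?_⟩
    obtain ⟨⟨Y, hY⟩, hY0, hYs⟩ := finrank_eq_one_iff'.1 h5
    refine ⟨cj Bi B Y, ?_, ?_⟩
    · intro h8
      apply hY0
      have h9 := congrArg (cj B Bi) h8
      rw [cj_cj h1, cj_zero] at h9
      exact Subtype.ext h9
    · intro X
      rw [hLd]
      constructor
      · intro hX
        obtain ⟨c, hc⟩ := hYs ⟨_, hX⟩
        refine ⟨c, ?_⟩
        have h8 : c • Y = cj B Bi X := congrArg Subtype.val hc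
        rw [← cj_smul, h8, cj_cj h2]
      · rintro ⟨c, hc⟩
        rw [hc, cj_smul, cj_cj h1]
        exact Submodule.smul_mem _ _ hY
  · right; right
    intro X hX
    have h6 := h5 _ (hskc X hX)
    rwa [mem_LBB27, cj_cj h2] at h6

end MH
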